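import Pool.Agent.K7.H22.LW.Stm

/-!
# Job E: averages over signs
-/

set_option autoImplicit false

open Finset

namespace Pool.Agent.K7.H59.LW

open Pool.Agent.K7.H22.LW

/-- the sign -/
def sn (t : Bool) : ℝ := if t then 1 else -1

lemma sg_snoc {N : ℕ} (s : Fin N → Bool) (t : Bool) :
    sg (Fin.snoc s t : Fin (N + 1) → Bool) = Function.update (sg s) N (sn t) := by
  funext i
  unfold sg sn
  rcases lt_trichotomy i N with h | h | h
  · rw [Function.update_of_ne h.ne, dif_pos (by omega : i < N + 1), dif_pos h]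
    have e : (⟨i, by omega⟩ : Fin (N + 1)) = Fin.castSucc ⟨i, h⟩ := rfl
    rw [e, Fin.snoc_castSucc]
  · subst h
    rw [Function.update_self, dif_pos (Nat.lt_succ_self i)]
    have e : (⟨i, Nat.lt_succ_self i⟩ : Fin (i + 1)) = Fin.last i := rfl
    rw [e, Fin.snoc_last]
  · rw [Function.update_of_ne h.ne', dif_neg (by omega), dif_neg (by omega)]

lemma sg_cons {N : ℕ} (s : Fin N → Bool) (t : Bool) :
    sg (Fin.cons t s : Fin (N + 1) → Bool) = fun i => if i = 0 then sn t else sg s (i - 1) := by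
  funext i
  unfold sg sn
  cases i with
  | zero =>
    rw [if_pos rfl, dif_pos (Nat.succ_pos N)]
    rfl
  | succ i =>
    rw [if_neg (Nat.succ_ne_zero i), Nat.succ_sub_one]
    by_cases h : i < N
    · rw [dif_pos (by omega : i + 1 < N + 1), dif_pos h]
      rfl
    · rw [dif_neg (by omega), dif_neg h]

lemma E_snoc (N : ℕ) (f : (ℕ → ℝ) → ℝ) : E (N + 1) f =
    (E N (fun b => f (Function.update b N 1)) + E N (fun b => f (Function.update b N (-1)))) / 2 := by
  unfold E
  have h1 : ∑ s : Fin (N + 1) → Bool, f (sg s) =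
      ∑ x : Bool × (Fin N → Bool), f (sg (Fin.snoc x.2 x.1 : Fin (N + 1) → Bool)) :=
    (Fintype.sum_equiv (Fin.snocEquiv (fun _ : Fin (N + 1) => Bool)) _ _ fun _ => rfl).symm
  rw [h1, Fintype.sum_prod_type]
  simp only [Fintype.sum_bool, sg_snoc]
  have e1 : sn true = 1 := rfl
  have e2 : sn false = -1 := by simp [sn]
  rw [e1, e2, pow_succ]
  field_simp

lemma E_cons (N : ℕ) (f : (ℕ → ℝ) → ℝ) : E (N + 1) f =
    (E N (fun b => f (fun i => if i = 0 then 1 else b (i - 1))) +
      E N (fun b => f (fun i => if i = 0 then -1 else b (i - 1)))) / 2 := by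
  unfold E
  have h1 : ∑ s : Fin (N + 1) → Bool, f (sg s) =
      ∑ x : Bool × (Fin N → Bool), f (sg (Fin.cons x.1 x.2 : Fin (N + 1) → Bool)) :=
    (Fintype.sum_equiv (Fin.consEquiv (fun _ : Fin (N + 1) => Bool)) _ _ fun _ => rfl).symm
  rw [h1, Fintype.sum_prod_type]
  simp only [Fintype.sum_bool, sg_cons]
  have e1 : sn true = 1 := rfl
  have e2 : sn false = -1 := by simp [sn]
  rw [e1, e2, pow_succ]
  field_simp

lemma E_lin (N : ℕ) (c : ℝ) (f f' : (ℕ → ℝ) → ℝ) :
    E N (fun b => c * f b + f' b) = c * E N f + E N f' := by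
  unfold E
  rw [Finset.sum_add_distrib, ← Finset.mul_sum, add_div, mul_div_assoc]

lemma E_const (N : ℕ) (c : ℝ) : E N (fun _ => c) = c := by
  unfold E
  rw [Finset.sum_const, Finset.card_univ, Fintype.card_fun, Fintype.card_bool, Fintype.card_fin,
    nsmul_eq_mul]
  push_cast
  field_simp

lemma E_mono (N : ℕ) (f f' : (ℕ → ℝ) → ℝ) (h : ∀ b, f b ≤ f' b) : E N f ≤ E N f' := by
  unfold E
  exact div_le_div_of_nonneg_right (Finset.sum_le_sum fun s _ => h _) (by positivity)

lemma E_tail (k g : ℕ) (f : (ℕ → ℝ) → ℝ) (hf : ∀ b b' : ℕ → ℝ, (∀ i < g, b i = b' i) → f b = f b') :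
    E (g + k) f = E g f := by
  induction k with
  | zero => rfl
  | succ k ih =>
    rw [← add_assoc, E_snoc]
    have h1 : ∀ c : ℝ, (fun b : ℕ → ℝ => f (Function.update b (g + k) c)) = f := by
      intro c
      funext b
      refine hf _ _ fun i hi => ?_
      rw [Function.update_of_ne (by omega)]
    rw [h1, h1, ih]
    ring

lemma E_head (k g : ℕ) (f : (ℕ → ℝ) → ℝ) : E (k + g) (fun b => f (fun i => b (k + i))) = E g f := by
  induction k with
  | zero =>
    rw [zero_add]
    simp only [zero_add]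
  | succ k ih =>
    rw [show k + 1 + g = k + g + 1 by ring, E_cons]
    have h1 : ∀ (b : ℕ → ℝ) (c : ℝ), (fun i => if k + 1 + i = 0 then c else b (k + 1 + i - 1)) =
        fun i => b (k + i) := by
      intro b c
      funext i
      rw [if_neg (by omega)]
      congr 1
      omega
    simp only [h1]
    rw [ih]
    ring

lemma S_update (b : ℕ → ℝ) (g : ℕ) (c : ℝ) : S (Function.update b g c) (g + 1) = S b g + c := by
  unfold S
  rw [Finset.sum_range_succ, Function.update_self]
  congr 1
  refine Finset.sum_congr rfl fun i hi => ?_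
  rw [Function.update_of_ne (mem_range.1 hi).ne]

lemma E_add (N : ℕ) (f f' : (ℕ → ℝ) → ℝ) : E N (fun b => f b + f' b) = E N f + E N f' := by
  have h := E_lin N 1 f f'
  simp only [one_mul] at h
  exact h

lemma E_two (g : ℕ) : E g (fun b => S b g ^ 2) = g := by
  induction g with
  | zero =>
    unfold E S
    simp
  | succ g ih =>
    rw [E_snoc]
    simp only [S_update]
    have h1 : E g (fun b => (S b g + 1) ^ 2) + E g (fun b => (S b g + -1) ^ 2) =
        2 * E g (fun b => S b g ^ 2) + 2 := by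
      rw [← E_add]
      have h2 := E_lin g 2 (fun b => S b g ^ 2) (fun _ => 2)
      rw [E_const] at h2
      rw [← h2]
      congr 1
      funext b
      ring
    rw [h1, ih]
    push_cast
    ring

lemma E_four (g : ℕ) : E g (fun b => S b g ^ 4) ≤ 3 * (g : ℝ) ^ 2 := by
  induction g with
  | zero =>
    unfold E S
    simp
  | succ g ih =>
    rw [E_snoc]
    simp only [S_update]
    have h1 : E g (fun b => (S b g + 1) ^ 4) + E g (fun b => (S b g + -1) ^ 4) =
        2 * E g (fun b => S b g ^ 4) + (12 * E g (fun b => S b g ^ 2) + 2) := by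
      rw [← E_add]
      have h2 := E_lin g 12 (fun b => S b g ^ 2) (fun _ => 2)
      rw [E_const] at h2
      have h3 := E_lin g 2 (fun b => S b g ^ 4) (fun b => 12 * S b g ^ 2 + 2)
      rw [← h2, ← h3]
      congr 1
      funext b
      ring
    rw [h1, E_two]
    push_cast
    have : (0 : ℝ) ≤ g := Nat.cast_nonneg g
    nlinarith

theorem e : StE :=
  ⟨E_lin, E_const, E_mono, fun k g f hf => ⟨E_head k g f, E_tail k g f hf⟩, E_two, E_four⟩

end Pool.Agent.K7.H59.LW
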