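import Pool.Agent.K7.H22.LW.Stm

/-!
# Job J: iteration
-/

set_option autoImplicit false

open Finset

namespace Pool.Agent.K7.H59.LW

open Pool.Agent.K7.H22.LW

theorem j (hR : StR) : StJ := by
  intro p _ hp2 h m e J hm he hp
  have hp0 : (0 : ℝ) < p := by exact_mod_cast (Fact.out : p.Prime).pos
  have hstep : ∀ i < J, ((Nr p h (i * (36 + e))).card : ℝ) ≤
      49 / 50 * (Nr p h ((i + 1) * (36 + e))).card + 4 * (1 / 2) ^ m * p := by
    intro i hi
    have h1 := hR p hp2 h (i * (36 + e)) m e hm he (le_trans (Nat.pow_le_pow_right (by norm_num) ?_) hp)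
    · rw [show (i + 1) * (36 + e) = i * (36 + e) + (36 + e) by ring]
      exact h1
    · refine Nat.mul_le_mul_left _ ?_
      have : i * (36 + e) ≤ J * (36 + e) := Nat.mul_le_mul_right _ hi.le
      omega
  have key : ∀ k ≤ J, ((Nr p h ((J - k) * (36 + e))).card : ℝ) ≤
      ((49 / 50) ^ k + 200 * (1 / 2) ^ m * (1 - (49 / 50) ^ k)) * p := by
    intro k
    induction k with
    | zero =>
      intro _
      have h1 : (Nr p h ((J - 0) * (36 + e))).card ≤ Fintype.card (ZMod p) := card_le_univ _
      rw [ZMod.card] at h1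
      have h2 : ((Nr p h ((J - 0) * (36 + e))).card : ℝ) ≤ p := by exact_mod_cast h1
      simpa using h2
    | succ k ih =>
      intro hk
      have h1 := ih (by omega)
      have h2 := hstep (J - (k + 1)) (by omega)
      rw [show J - (k + 1) + 1 = J - k by omega] at h2
      have e1 : ((49 / 50 : ℝ) ^ (k + 1) + 200 * (1 / 2) ^ m * (1 - (49 / 50) ^ (k + 1))) * p =
          49 / 50 * (((49 / 50) ^ k + 200 * (1 / 2) ^ m * (1 - (49 / 50) ^ k)) * p) +
            4 * (1 / 2) ^ m * p := by
        rw [pow_succ]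
        ring
      rw [e1]
      linarith
  have h1 := key J le_rfl
  rw [Nat.sub_self, zero_mul] at h1
  have h2 : ((univ.filter fun x : ZMod p => FF p x = h).card : ℝ) ≤ (Nr p h 0).card := by
    have h3 : (univ.filter fun x : ZMod p => FF p x = h) ⊆ Nr p h 0 := by
      intro x hx
      unfold Nr
      rw [mem_filter] at hx ⊢
      refine ⟨mem_univ _, 0, Nat.zero_le _, ?_⟩
      rw [Nat.cast_zero, add_zero]
      exact hx.2
    exact_mod_cast card_le_card h3
  refine h2.trans (h1.trans ?_)
  refine mul_le_mul_of_nonneg_right ?_ hp0.le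
  have h4 : (0 : ℝ) ≤ (1 / 2) ^ m := by positivity
  have h5 : (0 : ℝ) ≤ (49 / 50) ^ J := by positivity
  nlinarith [mul_nonneg h4 h5]

end Pool.Agent.K7.H59.LW
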