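import Pool.Agent.K7.H22.LW.Stm

/-!
# Job W: the walk is well defined modulo `p`
-/

set_option autoImplicit false

open Finset

namespace Pool.Agent.K7.H59.LW

open Pool.Agent.K7.H22.LW

section
variable (p : ℕ) [hp : Fact p.Prime]

lemma sum_all (hp2 : p ≠ 2) : ∑ x : ZMod p, quadraticChar (ZMod p) x = 0 := by
  refine quadraticChar_sum_zero ?_
  rw [ringChar.eq (ZMod p) p]
  exact hp2

/-- the sum of `χ` over all residues is the sum over the representatives -/
lemma sum_range_p (hp2 : p ≠ 2) : ∑ j ∈ range p, quadraticChar (ZMod p) ((j : ℕ) : ZMod p) = 0 := by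
  rw [← sum_all p hp2]
  refine Finset.sum_bij' (fun j _ => ((j : ℕ) : ZMod p)) (fun x _ => x.val) ?_ ?_ ?_ ?_ ?_
  · intro j _
    exact mem_univ _
  · intro x _
    exact mem_range.2 (ZMod.val_lt x)
  · intro j hj
    exact ZMod.val_cast_of_lt (mem_range.1 hj)
  · intro x _
    exact ZMod.natCast_zmod_val x
  · intro j _
    rfl

lemma step (hp2 : p ≠ 2) (x : ZMod p) :
    FF p (x + 1) = FF p x + quadraticChar (ZMod p) (x + 1) := by
  unfold FF Psi
  by_cases h : x.val + 1 < p
  · have h1 : (x + 1).val = x.val + 1 := by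
      have h0 : (1 : ZMod p).val = 1 := ZMod.val_one p
      rw [ZMod.val_add_of_lt (by rw [h0]; exact h), h0]
    rw [h1, Finset.sum_range_succ _ (x.val + 1)]
    congr 2
    rw [Nat.cast_add, ZMod.natCast_zmod_val, Nat.cast_one, zero_add]
  · have hlt := ZMod.val_lt x
    have h1 : x.val + 1 = p := by omega
    have h2 : x + 1 = 0 := by
      have h3 : ((x.val + 1 : ℕ) : ZMod p) = 0 := by rw [h1, ZMod.natCast_self]
      rwa [Nat.cast_add, ZMod.natCast_zmod_val, Nat.cast_one] at h3
    rw [h2, h1, ZMod.val_zero]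
    have h3 : ∑ j ∈ range p, quadraticChar (ZMod p) (0 + ((j : ℕ) : ZMod p)) = 0 := by
      rw [← sum_range_p p hp2]
      exact Finset.sum_congr rfl fun j _ => by rw [zero_add]
    rw [h3]
    simp

end

theorem w : StW := by
  intro p _ hp2
  refine ⟨step p hp2, fun a t => ?_⟩
  induction t with
  | zero =>
    have h := step p hp2 (a - 1)
    rw [sub_add_cancel] at h
    unfold Psi
    rw [zero_add, Finset.sum_range_one, Nat.cast_zero, add_zero, h]
    ring
  | succ t ih =>
    have h := step p hp2 (a + (t : ℕ))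
    have e : a + ((t + 1 : ℕ) : ZMod p) = a + (t : ℕ) + 1 := by push_cast; ring
    unfold Psi at ih ⊢
    rw [Finset.sum_range_succ, ih, e, h]
    ring

end Pool.Agent.K7.H59.LW
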